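import Pool.Agent.MP_249f74_an.H72.Edge
import Pool.Agent.MP_249f74_an.H17.CmConf
import Pool.Agent.MP_249f74_an.H17.CmWarp
import Pool.Agent.MP_249f74_an.H32.Mod

/-!
A path of reflections of a generic line that ends on an affine image of the line is trivial.
-/

open Set Matrix

namespace Pool.Agent.MP_249f74_an.H72

open H88 (cl)
open H17.Cm (Li Step Gen Pa tot del grad rf Comm)
open H32 (Mir St pt pos dir sys)

variable {k C Ω Ω' ι : Type} [Field k] [Algebra k ℝ] [Field C] [Algebra k C] [Field Ω] [Field Ω']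
  [Algebra C Ω] [Algebra C Ω'] [Fintype ι] [DecidableEq ι]

omit [Fintype ι] [DecidableEq ι] in
lemma aeval_map (φ : Ω →ₐ[C] Ω') (q : ι → Ω) (F : MvPolynomial ι C) :
    MvPolynomial.aeval (φ ∘ q) F = φ (MvPolynomial.aeval q F) :=
  (MvPolynomial.comp_aeval_apply ..).symm

omit [DecidableEq ι] in
lemma dot_map (φ : Ω →ₐ[C] Ω') (p q : ι → Ω) : (φ ∘ p) ⬝ᵥ (φ ∘ q) = φ (p ⬝ᵥ q) := by
  simp [dotProduct]

omit [DecidableEq ι] in
lemma pt_on (φ : Ω →ₐ[C] Ω') {l : Li Ω ι} {q : ι → Ω} (h : l.On q) {s c t : Ω'}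
    (e : s + t * c = φ (q ⬝ᵥ l.u)) : pt (edge (Li.map φ l) s c) t = φ ∘ q := by
  ext i
  have := congrArg φ (congrFun h i)
  simp only [Pi.add_apply, Pi.smul_apply, smul_eq_mul, map_add, map_mul, ← e] at this
  simp only [pt, pos, dir, edge, Li.map, Sum.elim_inl, Sum.elim_inr, Pi.add_apply, Pi.smul_apply,
    smul_eq_mul, Function.comp, this]
  ring

lemma st_of_step (φ : Ω →ₐ[C] Ω') {m : Mir k C ι} {l l' : Li Ω ι} {q : ι → Ω}
    (h : Step m.f l q l') {s s' c t : Ω'} (hc : c ≠ 0) (e : s + t * c = φ (q ⬝ᵥ l.u))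
    (e' : s' + t * c = φ (q ⬝ᵥ l'.u)) :
    St m (edge (Li.map φ l) s c) t (edge (Li.map φ l') s' c) := by
  have hg : grad m.f (φ ∘ q) = φ ∘ grad m.f q := funext fun i => aeval_map ..
  have hd : ∀ (l : Li Ω ι) (s : Ω'), dir (edge (Li.map φ l) s c) = c • (φ ∘ l.u) := fun _ _ => rfl
  refine ⟨?_, ?_, ?_, by rw [pt_on φ h.on e, pt_on φ h.on' e'], ?_⟩ <;> rw [pt_on φ h.on e]
  · rw [aeval_map, h.zero, map_zero]
  · rw [hg, dot_map]; simpa using h.nn
  · rw [hg, hd, dotProduct_smul, dot_map]; simpa [hc] using h.nu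
  · rw [hg, hd, hd, H17.Cm.rf_smul, h.eq, rf, rf, dot_map, dot_map]
    ext i; simp [map_ofNat]

lemma cm_comm [CharZero Ω] {m m' : Mir k C ι} (h : H32.Cm m m') : Comm Ω m.f m'.f := by
  rcases h.2 with h | h | h
  exacts [h.comm, h.comm, h.comm.symm]

lemma cm_symm {m m' : Mir k C ι} (h : H32.Cm m m') : H32.Cm m' m :=
  ⟨h.1.symm, by rcases h.2 with h | h | h; exacts [.inl h.symm, .inr (.inr h), .inr (.inl h)]⟩

variable (k C ι) in
/-- Reduced chains do not close up. -/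
def Fin' : Prop :=
  ∀ (Ω : Type) [Field Ω] [CharZero Ω] [IsAlgClosed Ω] [Algebra C Ω], H42.Sf C Ω (ι ⊕ ι) →
    (∃ l : ι ⊕ ι → Ω, H42.Gen C l) → (sys k C Ω ι).FIN

theorem zero [CharZero Ω] (hF : Fin' k C ι) {l l' : Li Ω ι} (hl : Gen C l)
    (ha : ∀ a, a ∈ cl C (range l.u ∪ range l.x)) {n : ℕ} {m : ℕ → Mir k C ι} {L : ℕ → Li Ω ι}
    {q : ℕ → ι → Ω} (h : Pa (fun m : Mir k C ι => Step m.f) l l' n m L q) (A : Matrix ι ι C)
    (b : ι → C) (hu : l'.u = A.map (algebraMap C Ω) *ᵥ l.u)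
    (hx : l'.On (A.map (algebraMap C Ω) *ᵥ l.x + algebraMap C Ω ∘ b)) :
    l' = l ∧ tot n L q = 0 := by
  obtain ⟨n, m, L, q, -, h, e, hb, hr⟩ := H17.Cm.sort (fun m : Mir k C ι => m.f) Mir.mir
    (Cm := H32.Cm) (fun _ _ => cm_symm) (fun _ h => h.1 rfl) (fun _ _ => cm_comm) hl h
  rw [← e]
  rcases n.eq_zero_or_pos with rfl | hn
  · exact ⟨h.ln.symm.trans h.l0, by simp [tot]⟩
  exfalso
  obtain ⟨Ω', _, _, _, v, hv⟩ := H96.Pv.exists_ext Ω Bool
  let _ : Algebra C Ω' := ((algebraMap Ω Ω').comp (algebraMap C Ω)).toAlgebra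
  have : IsScalarTower C Ω Ω' := .of_algebraMap_eq fun _ => rfl
  have : CharZero Ω' := charZero_of_injective_algebraMap (algebraMap Ω Ω').injective
  let φ := IsScalarTower.toAlgHom C Ω Ω'
  have c0 : v false ≠ 0 := hv.1.ne_zero false
  let E : ℕ → ι ⊕ ι → Ω' := fun i => edge (Li.map φ (L i)) (v true - φ (tot i L q)) (v false)
  let t : ℕ → Ω' := fun i => (φ (q i ⬝ᵥ (L i).u) - (v true - φ (tot i L q))) / v false
  have e1 : ∀ i, v true - φ (tot i L q) + t i * v false = φ (q i ⬝ᵥ (L i).u) := fun i => by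
    simp only [t]; field_simp; ring
  have e2 : ∀ i, v true - φ (tot (i + 1) L q) + t i * v false = φ (q i ⬝ᵥ (L (i + 1)).u) :=
    fun i => by
      have := e1 i
      simp only [tot, Finset.sum_range_succ, del, dotProduct_sub, map_add, map_sub] at this ⊢
      linear_combination this
  have E0 : E 0 = edge (Li.map φ l) (v true) (v false) := by simp [E, h.l0, tot]
  have g0 : H42.Gen C (E 0) := E0 ▸ algebraicIndependent_iff.1 (edge_gen hv hl)
  refine hF Ω' (sf_of (edge_alg hv ha)) ⟨_, g0⟩ (fun i => m i.toNat) (fun i => E i.toNat)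
    (fun i => t i.toNat) 0 n (by omega) ⟨fun i h1 h2 => ?_, fun i h1 h2 h3 => ?_⟩ g0
    (fun i j h1 h2 h3 h4 h5 => ?_) fun σ hσ => ?_
  · lift i to ℕ using h1
    exact st_of_step φ (h.st i (by omega)) c0 (e1 i) (e2 i)
  · lift i to ℕ using h1
    have h4 : t i = t (i + 1) := h3
    have := (pt_on φ (h.st i (by omega)).on' (e2 i)).symm.trans
      (h4 ▸ pt_on φ (h.st (i + 1) (by omega)).on (e1 (i + 1)))
    exact hb i (by omega) (funext fun j => φ.injective (congrFun this j))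
  · have := hr i.toNat j.toNat (by omega) (by omega) h4 fun r h6 h7 =>
      h5 r (by omega) (by omega)
    omega
  · have f1 : ∀ j, σ (φ (l.x j) + v true * φ (l.u j)) = φ (l.x j) + v true * φ (l.u j) := fun j =>
      hσ _ ⟨Sum.inl j, congrFun E0 _⟩
    have f2 : ∀ j, σ (v false * φ (l.u j)) = v false * φ (l.u j) := fun j =>
      hσ _ ⟨Sum.inr j, congrFun E0 _⟩
    have f3 : ∀ j, σ (v false * φ (l'.u j)) = v false * φ (l'.u j) := fun j => by
      have : v false * φ (l'.u j) = ∑ i, algebraMap C Ω' (A j i) * (v false * φ (l.u i)) := by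
        simp [hu, mulVec, dotProduct, Finset.mul_sum, mul_left_comm]
      simp only [this, map_sum, map_mul σ (algebraMap C Ω' _), f2, AlgEquiv.commutes]
    obtain ⟨r, hr⟩ := hx.sub l'.on_x
    obtain ⟨w, hw⟩ : ∃ w, w = (φ r - φ (tot n L q)) / v false := ⟨_, rfl⟩
    have f4 : ∀ j, φ (l'.x j) + (v true - φ (tot n L q)) * φ (l'.u j) =
        ∑ i, algebraMap C Ω' (A j i) * (φ (l.x i) + v true * φ (l.u i)) + algebraMap C Ω' (b j) +
          w * (v false * φ (l'.u j)) := fun j => by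
      have h1 : φ (l'.u j) = ∑ i, algebraMap C Ω' (A j i) * φ (l.u i) := by
        simp [hu, mulVec, dotProduct]
      have h2 : φ (l'.x j) = ∑ i, algebraMap C Ω' (A j i) * φ (l.x i) + algebraMap C Ω' (b j) +
          φ r * φ (l'.u j) := by
        conv_lhs => rw [hr]
        simp [mulVec, dotProduct]
      have h3 : w * v false = φ r - φ (tot n L q) := by rw [hw]; field_simp
      simp only [mul_add, Finset.sum_add_distrib, mul_left_comm _ (v true), ← Finset.mul_sum, ← h1]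
      rw [h2, ← mul_assoc, h3]
      ring
    have En : E (n : ℤ).toNat = edge (Li.map φ l') (v true - φ (tot n L q)) (v false) := by
      simp [E, h.ln]
    change H32.Same (H42.mp σ (E (n : ℤ).toNat)) (E (n : ℤ).toNat)
    rw [En]
    refine ⟨funext fun j => (f3 j).symm, w - σ w, funext fun j => ?_⟩
    change φ (l'.x j) + _ * φ (l'.u j) =
      σ (φ (l'.x j) + _ * φ (l'.u j)) + (w - σ w) * σ (v false * φ (l'.u j))
    rw [f4, map_add σ, map_add σ, map_sum]
    simp only [map_mul σ (algebraMap C Ω' _), map_mul σ w, f1, f3, AlgEquiv.commutes]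
    ring

end Pool.Agent.MP_249f74_an.H72
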