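import Pool.Agent.MP_249f74_an.H17.Spec
import Pool.Agent.MP_249f74_an.H90.Spec

/-!
From dimension bounds for orbits of a fixed period to measure zero.
-/

open Set MeasureTheory

namespace Pool.Agent.MP_249f74_an.H72

open H90

/-- The statement in dimension `d`. -/
def Goal (d : ℕ) : Prop :=
  ∀ (f : EuclideanSpace ℝ (Fin d) → ℝ), ContDiff ℝ ((⊤ : ℕ∞) : WithTop ℕ∞) f →
    MeasureTheory.Measure.hausdorffMeasure ((2 * d - 2 : ℕ) : ℝ)
      {q : EuclideanSpace ℝ (Fin d) × EuclideanSpace ℝ (Fin d) |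
        f q.1 = 0 ∧ ‖q.2‖ = 1 ∧ inner ℝ q.2 (gradient f q.1) < 0 ∧
        ∃ n : ℕ, 1 ≤ n ∧ ∃ p u : ℕ → EuclideanSpace ℝ (Fin d),
          p 0 = q.1 ∧ u 0 = q.2 ∧ p n = q.1 ∧ u n = q.2 ∧
          ∀ k < n, f (p k) = 0 ∧ ‖u k‖ = 1 ∧ inner ℝ (u k) (gradient f (p k)) < 0 ∧
            (∃ t : ℝ, 0 < t ∧ p (k + 1) = p k + t • u k ∧
              ∀ s ∈ Set.Ioo (0 : ℝ) t, f (p k + s • u k) < 0) ∧
            u (k + 1) = u k - (2 * inner ℝ (u k) (gradient f (p (k + 1))) /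
                ‖gradient f (p (k + 1))‖ ^ 2) • gradient f (p (k + 1))} = 0

/-- The dimension bound in dimension `d`. -/
def Dim (d : ℕ) : Prop :=
  ∀ f : EuclideanSpace ℝ (Fin d) → ℝ, ContDiff ℝ ((⊤ : ℕ∞) : WithTop ℕ∞) f →
    ∀ n : ℕ, dimH (Orb f (fun _ => True) (n + 1)) ≤ ((2 * d - 3 : ℕ) : ENNReal)

theorem Dim.goal {d : ℕ} (hd : 2 ≤ d) (h : Dim d) : Goal d := by
  intro f hf
  have e : ((2 * d - 2 : ℕ) : ℝ) = (((2 * d - 2 : ℕ) : NNReal) : ℝ) := (NNReal.coe_natCast _).symm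
  rw [e]
  refine hausdorffMeasure_of_dimH_lt (lt_of_le_of_lt ((dimH_mono ?_).trans
    ((dimH_iUnion _).trans_le (iSup_le fun n => h f hf n))) ?_)
  · rintro q ⟨-, -, -, n, hn, p, u, h1, h2, h3, h4, H⟩
    obtain ⟨n, rfl⟩ : ∃ m, n = m + 1 := ⟨n - 1, by omega⟩
    refine mem_iUnion.2 ⟨n, p, u, h1, h2, h3, h4, fun k hk => ?_⟩
    obtain ⟨a, b, c, ⟨t, t0, t1, -⟩, e⟩ := H k hk
    exact ⟨a, b, c, ⟨t, t0, t1⟩, e, trivial⟩
  · rw [ENNReal.coe_natCast, Nat.cast_lt]; omega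

theorem dim_of_final {R : Rel} (h : Final R) {d : ℕ} (hd : 2 ≤ d) (hR : ∀ f x, R d f x) :
    Dim d := fun f hf n => by
  have : R d f = fun _ => True := funext fun x => eq_true (hR f x)
  exact this ▸ h d hd f hf n

theorem dim_two (h : ∀ n, H17.Final (n + 1)) : Dim 2 := fun f hf n => by
  refine (dimH_mono ?_).trans ((h n f hf).trans (by simp))
  rintro q ⟨p, u, h1, h2, h3, h4, H⟩
  refine ⟨p, u, h1, h2, h3, h4, fun k hk => ?_⟩
  obtain ⟨a, b, c, t, e, -⟩ := H k hk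
  exact ⟨a, b, c, t, e⟩

/-- All dimensions at once. -/
theorem goal (h : Final fun _ _ _ => True) (d : ℕ) (hd : 2 ≤ d) : Goal d :=
  (dim_of_final h hd fun _ _ => trivial).goal hd

/-- The property `p` in dimension at least three. -/
def up (p : Prp) : Prp := fun k Ω ι _ _ _ _ _ q => p k Ω ι q ∧ 3 ≤ Fintype.card ι

theorem up_ok {p : Prp} (hp : p.Ok) : (up p).Ok := fun k Ω Ω' ι _ _ _ _ _ _ _ i q => by
  simp only [up, hp k Ω Ω' ι i q]

theorem up_link {p : Prp} (h : Link p fun _ _ _ => True) : Link (up p) fun d _ _ => 3 ≤ d :=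
  fun d N f x δ v k hf hd h1 h2 h3 h4 h5 h6 =>
    ⟨h d N f x δ v k hf trivial h1 h2 h3 h4 h5 h6, by simpa using hd⟩

/-- The plane and the higher dimensions separately. -/
theorem goal' (h2 : ∀ n, H17.Final (n + 1)) (h3 : Final fun d _ _ => 3 ≤ d) (d : ℕ)
    (hd : 2 ≤ d) : Goal d := by
  rcases hd.eq_or_lt with rfl | h
  · exact (dim_two h2).goal le_rfl
  · exact (dim_of_final h3 hd fun _ _ => h).goal hd

end Pool.Agent.MP_249f74_an.H72
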