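import Pool.Agent.MP_249f74_an.H96.Alg
import Pool.Agent.MP_249f74_an.H96.An
import Pool.Agent.MP_249f74_an.H96.Aut
import Pool.Agent.MP_249f74_an.H96.Bas
import Pool.Agent.MP_249f74_an.H96.Chh
import Pool.Agent.MP_249f74_an.H96.Dbl
import Pool.Agent.MP_249f74_an.H96.Free
import Pool.Agent.MP_249f74_an.H96.Ind
import Pool.Agent.MP_249f74_an.H96.Irr
import Pool.Agent.MP_249f74_an.H96.Lie
import Pool.Agent.MP_249f74_an.H96.Nf
import Pool.Agent.MP_249f74_an.H96.Nf2
import Pool.Agent.MP_249f74_an.H96.Norm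
import Pool.Agent.MP_249f74_an.H96.PdeA
import Pool.Agent.MP_249f74_an.H96.PdeB
import Pool.Agent.MP_249f74_an.H96.Pen
import Pool.Agent.MP_249f74_an.H96.Pole
import Pool.Agent.MP_249f74_an.H96.Pv
import Pool.Agent.MP_249f74_an.H96.Spl
import Pool.Agent.MP_249f74_an.H96.Trf

/-!
Transcendental mirrors cancel: reduction to twisted chains of algebraic mirrors.
-/

namespace Pool.Agent.MP_249f74_an.H72

open H96

theorem reduce (p : Prp) (hp : p.Ok) (hA : StmtA p) (n : ℕ) : StmtQ p n :=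
  norm p hp (ind p (step pen (free aut pen)) (foc pen) (fun n => nf p n bas pv trf
    (nf2 spl (dbl copy (ch copy) lie) pdea (pdeb pole conic)) hp) hp hA) n

theorem final (n : ℕ) : Final (n + 1) := an n (reduce NC nc_ok alg n)

end Pool.Agent.MP_249f74_an.H72
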