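import Pool.Agent.MP_249f74_an.H72.Glue
import Pool.Agent.MP_249f74_an.H90.Top
import Pool.Agent.MP_249f74_an.H96A.Top

/-!
Reduction to closed chains of algebraic mirrors in dimension at least three.
-/

namespace Pool.Agent.MP_249f74_an.H72

open H90

theorem full (hA : StmtA (up RL)) : ∀ d, 2 ≤ d → Goal d :=
  goal' H96A.planar (H90.an _ _ (up_ok rl_ok) (up_link link_rl) (H90.reduce _ (up_ok rl_ok) hA))

end Pool.Agent.MP_249f74_an.H72
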