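import Pool.Agent.MP_249f74_an.H72.Conv
import Pool.Agent.MP_249f74_an.H72.Full

/-!
Reduction to reduced chains in dimension at least three.
-/

namespace Pool.Agent.MP_249f74_an.H72

theorem all (hF : ∀ (k ι : Type) [Field k] [Algebra k ℝ] [Fintype ι] [DecidableEq ι], H52.RC k →
    3 ≤ Fintype.card ι → Fin' k (AlgebraicClosure k) ι) : ∀ d, 2 ≤ d → Goal d := full (conv hF)

end Pool.Agent.MP_249f74_an.H72
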