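import Pool.Agent.MP_249f74_an.H72.Zero
import Pool.Agent.MP_249f74_an.H52.Real

/-!
Paths of reflections in real mirrors over the real field.
-/

open Set Matrix MvPolynomial

namespace Pool.Agent.MP_249f74_an.H72

open H88 (cl)
open H17.Cm (Li Step Gen Pa tot grad)
open H52 (RC RM)

variable {k C Ω ι : Type} [Field k] [Algebra k ℝ] [Field C] [Algebra k C] [Field Ω]
  [Fintype ι] [DecidableEq ι]

lemma exists_mir (hk : RC k) {F : MvPolynomial ι k} (h : RM F) (hd : 2 ≤ F.totalDegree) :
    ∃ (m : H32.Mir k C ι) (a : C), a ≠ 0 ∧ m.f = a • map (algebraMap k C) F := by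
  have hm := h.mir_map hk C
  have e : Associated (map (algebraMap k C) F) (Quot.out (Associates.mk (map (algebraMap k C) F))) :=
    Associates.mk_eq_mk_iff_associated.1 (Associates.quot_out _).symm
  obtain ⟨u, hu⟩ := e
  obtain ⟨a, ha, e⟩ := isUnit_iff_eq_C_of_isReduced.1 u.isUnit
  have e1 : Quot.out (Associates.mk (map (algebraMap k C) F)) = a • map (algebraMap k C) F := by
    rw [← hu, e, smul_eq_C_mul, mul_comm]
  have e2 : Associated (map (algebraMap k C) F) (a • map (algebraMap k C) F) := e1 ▸ ⟨u, hu⟩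
  obtain ⟨y, hy⟩ := h.real
  refine ⟨⟨a • map (algebraMap k C) F, e2.prime hm.prime, ?_, ?_, ⟨F, a, y, rfl, hy⟩, fun h0 =>
    hm.nn ?_⟩, a, ha.ne_zero, rfl⟩
  · rw [← RM.td_map (algebraMap k C).injective F] at hd
    exact hd.trans (totalDegree_le_of_dvd_of_isDomain e2.dvd (e2.prime hm.prime).ne_zero)
  · rw [← Associates.mk_eq_mk_iff_associated.2 e2, e1]
  · have h1 : ∀ G : MvPolynomial ι C, ∑ i, pderiv i (a • G) * pderiv i (a • G) =
        MvPolynomial.C (a * a) * ∑ i, pderiv i G * pderiv i G := fun G => by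
      rw [Finset.mul_sum]
      exact Finset.sum_congr rfl fun i _ => by
        rw [Derivation.map_smul, smul_eq_C_mul, map_mul]; ring
    rw [h1] at h0
    exact (((ha.mul ha).map MvPolynomial.C).dvd_mul_left).1 (e2.dvd.trans h0)

variable [Algebra k Ω]

section Tower

variable [Algebra C Ω] [IsScalarTower k C Ω]

omit [Algebra k ℝ] [DecidableEq ι] in
lemma step_map {F : MvPolynomial ι k} {l l' : Li Ω ι} {q : ι → Ω} (h : Step F l q l') :
    Step (map (algebraMap k C) F) l q l' := by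
  have e : grad (map (algebraMap k C) F) q = grad F q := funext fun i => by
    simp only [grad, pderiv_map, aeval_map_algebraMap]
  exact ⟨h.on, h.on', by rw [aeval_map_algebraMap, h.zero], e ▸ h.nn, e ▸ h.nu, e ▸ h.eq⟩

omit [Algebra k ℝ] [DecidableEq ι] in
lemma gen_base [CharZero Ω] [Algebra.IsAlgebraic k C] {l : Li Ω ι} (h : Gen k l) : Gen C l :=
  fun a b h1 h2 => by
    obtain ⟨θ, h3⟩ := h a b h1 h2
    exact ⟨H17.toDer (θ.restrictScalars ℤ) fun c => H17.kill_cl (δ := θ) (S := ∅) (by simp)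
      (H88.mem_cl.2 (((Algebra.IsAlgebraic.isAlgebraic (R := k) c).algHom
        (IsScalarTower.toAlgHom k C Ω)).extendScalars
          (FaithfulSMul.algebraMap_injective _ _))), h3⟩

omit [Algebra k ℝ] in
lemma cl_base {S : Set Ω} {a : Ω} (h : a ∈ cl k S) : a ∈ cl C S := by
  obtain ⟨p, p0, hp⟩ := H88.mem_cl.1 h
  refine H88.mem_cl_of_root (p := p.map (algebraMap _ Ω))
    ((Polynomial.map_ne_zero_iff Subtype.val_injective).2 p0) (fun i => ?_)
    (by rwa [Polynomial.eval_map_algebraMap])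
  rw [Polynomial.coeff_map]
  have : ∀ b ∈ Algebra.adjoin k S, b ∈ cl C S := fun b hb => by
    induction hb using Algebra.adjoin_induction with
    | mem x hx => exact H88.subset_cl _ hx
    | algebraMap r => rw [IsScalarTower.algebraMap_apply k C Ω]; exact algebraMap_mem _ _
    | add _ _ _ _ h h' => exact add_mem h h'
    | mul _ _ _ _ h h' => exact mul_mem h h'
  exact this _ (p.coeff i).2

end Tower

theorem zero_real [IsAlgClosed Ω] (hk : RC k) (hF : Fin' k (AlgebraicClosure k) ι) {l l' : Li Ω ι}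
    (hl : Gen k l) (ha : ∀ a, a ∈ cl k (range l.u ∪ range l.x)) {n : ℕ}
    {F : ℕ → MvPolynomial ι k} {L : ℕ → Li Ω ι} {q : ℕ → ι → Ω}
    (hm : ∀ i < n, RM (F i) ∧ 2 ≤ (F i).totalDegree)
    (h : Pa (fun F : MvPolynomial ι k => Step F) l l' n F L q) (A : Matrix ι ι k)
    (b : ι → k) (hu : l'.u = A.map (algebraMap k Ω) *ᵥ l.u)
    (hx : l'.On (A.map (algebraMap k Ω) *ᵥ l.x + algebraMap k Ω ∘ b)) :
    l' = l ∧ tot n L q = 0 := by
  rcases n.eq_zero_or_pos with rfl | hn
  · exact ⟨h.ln.symm.trans h.l0, by simp [tot]⟩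
  have : CharZero k := (algebraMap k ℝ).charZero
  have : CharZero Ω := charZero_of_injective_algebraMap (algebraMap k Ω).injective
  let φ : AlgebraicClosure k →ₐ[k] Ω := IsAlgClosed.lift
  let _ : Algebra (AlgebraicClosure k) Ω := φ.toRingHom.toAlgebra
  have : IsScalarTower k (AlgebraicClosure k) Ω := .of_algebraMap_eq fun c => (φ.commutes c).symm
  choose m a a0 e using fun i : Fin n =>
    exists_mir (C := AlgebraicClosure k) hk (hm i i.2).1 (hm i i.2).2
  have e1 : (A.map (algebraMap k (AlgebraicClosure k))).map (algebraMap _ Ω) =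
      A.map (algebraMap k Ω) := by ext; simp [← IsScalarTower.algebraMap_apply]
  refine zero hF (gen_base hl) (fun a => cl_base (ha a))
    (m := fun i => m ⟨i % n, Nat.mod_lt _ hn⟩) ⟨fun i hi => ?_, h.l0, h.ln⟩
    (A.map (algebraMap k _)) (algebraMap k _ ∘ b) (e1 ▸ hu) ?_
  · simp only [Nat.mod_eq_of_lt hi, e]
    exact (step_map (h.st i hi)).smul (a0 _)
  · rwa [e1, ← Function.comp_assoc, ← RingHom.coe_comp, ← IsScalarTower.algebraMap_eq]

end Pool.Agent.MP_249f74_an.H72
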