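import Pool.Agent.MP_249f74_an.H72.Zero2
import Pool.Agent.MP_249f74_an.H72.Glue

/-!
Unfolding of plane mirrors; closed chains of real algebraic mirrors have delay zero.
-/

open Set Matrix MvPolynomial

namespace Pool.Agent.MP_249f74_an.H72

open H17.Cm
open H52 (RC RM)

variable {k Ω ι : Type} [Field k] [Field Ω] [Algebra k Ω] [Fintype ι] [DecidableEq ι]

/-- An affine map with constant coefficients. -/
def af {R : Type} [CommRing R] [Algebra k R] (A : Matrix ι ι k) (b : ι → k) (y : ι → R) : ι → R :=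
  A.map (algebraMap k R) *ᵥ y + algebraMap k R ∘ b

omit [DecidableEq ι] in
lemma af_af {R : Type} [CommRing R] [Algebra k R] (A A' : Matrix ι ι k) (b b' : ι → k)
    (y : ι → R) : af A b (af A' b' y) = af (A * A') (A *ᵥ b' + b) y := by
  ext i
  simp [af, Matrix.map_mul, mulVec_add, mulVec, dotProduct, add_assoc, mul_apply, Finset.sum_mul,
    mul_assoc]

lemma af_one {R : Type} [CommRing R] [Algebra k R] (y : ι → R) : af (1 : Matrix ι ι k) 0 y = y := by
  ext i; simp [af]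

omit [DecidableEq ι] in
lemma aeval_af {R : Type} [CommRing R] [Algebra k R] (A : Matrix ι ι k) (b : ι → k) (y : ι → R)
    (F : MvPolynomial ι k) : aeval y (aeval (af A b X : ι → MvPolynomial ι k) F) =
      aeval (af A b y) F := by
  rw [comp_aeval_apply]
  congr 2
  ext i; simp [af, mulVec, dotProduct]

lemma grad_af (A : Matrix ι ι k) (b : ι → k) (y : ι → Ω) (F : MvPolynomial ι k) :
    grad (aeval (af A b X : ι → MvPolynomial ι k) F) y =
      Aᵀ.map (algebraMap k Ω) *ᵥ grad F (af A b y) := by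
  ext j
  have : ∀ i, pderiv j (af A b X i : MvPolynomial ι k) = MvPolynomial.C (A i j) := fun i => by
    simp [af, mulVec, dotProduct, Pi.single_apply]
  simp only [grad, der_aeval (pderiv j), this, map_sum, map_mul, aeval_af, aeval_C, mulVec,
    dotProduct, map_apply, transpose_apply, mul_comm]

variable {A : Matrix ι ι k} {b : ι → k}

lemma orth_dot (hA : Aᵀ * A = 1) (p q : ι → Ω) :
    (A.map (algebraMap k Ω) *ᵥ p) ⬝ᵥ (A.map (algebraMap k Ω) *ᵥ q) = p ⬝ᵥ q := by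
  rw [dotProduct_mulVec, vecMul_mulVec, ← transpose_map, ← Matrix.map_mul, hA]
  simp

/-- The image of a line under an isometry. -/
def act (hA : Aᵀ * A = 1) (b : ι → k) (l : Li Ω ι) : Li Ω ι :=
  mkLi (af A b l.x) (A.map (algebraMap k Ω) *ᵥ l.u) (by rw [orth_dot hA, l.uu])

lemma on_act (hA : Aᵀ * A = 1) {l : Li Ω ι} {q : ι → Ω} (h : l.On q) :
    (act hA b l).On (af A b q) := by
  have e : af A b q = af A b l.x + (q ⬝ᵥ l.u) • (act hA b l).u := by
    nth_rewrite 1 [h]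
    simp [af, act, mkLi, mulVec_add, mulVec_smul, add_right_comm]
  exact e ▸ (on_mkLi _ _ _).add _

/-- The action on equations. -/
noncomputable def pull (hA : Aᵀ * A = 1) (b : ι → k) : MvPolynomial ι k ≃ₐ[k] MvPolynomial ι k :=
  AlgEquiv.ofAlgHom (aeval (af Aᵀ (-(Aᵀ *ᵥ b)) X)) (aeval (af A b X))
    (algHom_ext fun i => by
      rw [AlgHom.comp_apply, aeval_af, af_af, mul_eq_one_comm.1 hA, mulVec_neg, mulVec_mulVec,
        mul_eq_one_comm.1 hA, one_mulVec, neg_add_cancel, af_one]; simp)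
    (algHom_ext fun i => by
      rw [AlgHom.comp_apply, aeval_af, af_af, hA, add_neg_cancel, af_one]; simp)

lemma step_act (hA : Aᵀ * A = 1) {F : MvPolynomial ι k} {l l' : Li Ω ι} {q : ι → Ω}
    (h : Step F l q l') : Step (pull hA b F) (act hA b l) (af A b q) (act hA b l') := by
  have e : af Aᵀ (-(Aᵀ *ᵥ b)) (af A b q) = q := by rw [af_af, hA, add_neg_cancel, af_one]
  have g : grad (pull hA b F) (af A b q) = A.map (algebraMap k Ω) *ᵥ grad F q := by
    have := grad_af Aᵀ (-(Aᵀ *ᵥ b)) (af A b q) F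
    rwa [e, transpose_transpose] at this
  refine ⟨on_act hA h.on, on_act hA h.on', (aeval_af ..).trans (e.symm ▸ h.zero), ?_, ?_, ?_⟩ <;>
    rw [g]
  · rw [orth_dot hA]; exact h.nn
  · exact (orth_dot hA ..).trans_ne h.nu
  · change _ *ᵥ l'.u = rf _ (_ *ᵥ l.u)
    rw [h.eq, rf, rf, orth_dot hA, orth_dot hA, mulVec_sub, mulVec_smul]

omit [DecidableEq ι] in
lemma plane [CharZero k] {F : MvPolynomial ι k} (h : F.totalDegree < 2) :
    ∃ (N : ι → k) (c : k), ∀ y : ι → Ω, grad F y = algebraMap k Ω ∘ N ∧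
      aeval y F = algebraMap k Ω ∘ N ⬝ᵥ y - algebraMap k Ω c := by
  classical
  have h1 : ∀ i, ∃ a, pderiv i F = MvPolynomial.C a := fun i => by
    by_cases e : pderiv i F = 0
    · exact ⟨0, by simp [e]⟩
    · exact ⟨_, totalDegree_eq_zero_iff_eq_C.1 (by have := H88.totalDegree_pderiv_lt e; omega)⟩
  choose N hN using h1
  have h2 := totalDegree_eq_zero_iff_eq_C.1 (td_zero_of_pderiv
    (P := F - ∑ i, MvPolynomial.C (N i) * X i) fun j => by simp [hN, Pi.single_apply])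
  refine ⟨N, -coeff 0 (F - ∑ i, MvPolynomial.C (N i) * X i), fun y =>
    ⟨funext fun i => by simp [grad, hN], ?_⟩⟩
  have := congrArg (aeval y) h2
  rw [aeval_C, map_sub, sub_eq_iff_eq_add] at this
  rw [this, map_neg, sub_neg_eq_add, add_comm]
  simp [dotProduct]

variable [Algebra k ℝ]

variable (k) in
/-- Paths of reflections in real mirrors of degree at least two. -/
def Pth (l l' : Li Ω ι) (d : Ω) : Prop :=
  ∃ (n : ℕ) (F : ℕ → MvPolynomial ι k) (L : ℕ → Li Ω ι) (q : ℕ → ι → Ω),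
    (∀ i < n, RM (F i) ∧ 2 ≤ (F i).totalDegree) ∧
      Pa (fun F : MvPolynomial ι k => Step F) l l' n F L q ∧ tot n L q = d

omit [DecidableEq ι] in
lemma Pth.snoc {l l' l'' : Li Ω ι} {d : Ω} (h : Pth k l l' d) {G : MvPolynomial ι k} {p : ι → Ω}
    (h1 : RM G) (h2 : 2 ≤ G.totalDegree) (s : Step G l' p l'') :
    Pth k l l'' (d + del l' p l'') := by
  obtain ⟨n, F, L, q, a1, a2, rfl⟩ := h
  refine ⟨n + 1, fun i => if i < n then F i else G, fun i => if i ≤ n then L i else l'',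
    fun i => if i < n then q i else p, fun i _ => ?_, ⟨fun i hi => ?_, by simp [a2.l0], by simp⟩,
    ?_⟩
  · by_cases e : i < n
    exacts [by simpa [e] using a1 i e, by simpa [e] using ⟨h1, h2⟩]
  · by_cases e : i < n
    · simpa [e, e.le, Nat.succ_le_of_lt e] using a2.st i e
    · obtain rfl : i = n := by omega
      simpa [a2.ln] using s
  · simp only [tot, Finset.sum_range_succ, le_refl, if_true, lt_irrefl, if_false, a2.ln,
      Nat.not_succ_le_self]
    congr 1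
    exact Finset.sum_congr rfl fun i hi => by
      have e := Finset.mem_range.1 hi
      simp [e, e.le, Nat.succ_le_of_lt e]

lemma unfold {l0 l l' : Li Ω ι} {D : Ω} {F : MvPolynomial ι k} {q : ι → Ω} (hF : RM F)
    (s : Step F l q l') (hA : Aᵀ * A = 1)
    (h : Pth k l0 (act hA b l) (D - algebraMap k Ω ∘ b ⬝ᵥ (act hA b l).u)) :
    ∃ (A' : Matrix ι ι k) (b' : ι → k) (hA' : A'ᵀ * A' = 1), Pth k l0 (act hA' b' l')
      (D + del l q l' - algebraMap k Ω ∘ b' ⬝ᵥ (act hA' b' l').u) := by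
  have : CharZero k := (algebraMap k ℝ).charZero
  have s1 := step_act (b := b) hA s
  have e : del (act hA b l) (af A b q) (act hA b l') = del l q l' +
      algebraMap k Ω ∘ b ⬝ᵥ (act hA b l).u - algebraMap k Ω ∘ b ⬝ᵥ (act hA b l').u := by
    simp only [del, af, act, mkLi, add_dotProduct, dotProduct_sub, orth_dot hA]; ring
  by_cases hd : 2 ≤ (pull hA b F).totalDegree
  · refine ⟨A, b, hA, ?_⟩
    convert h.snoc (hF.comp _) hd s1 using 1
    rw [e]; ring
  obtain ⟨N, c, hN⟩ := plane (Ω := Ω) (not_le.1 hd)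
  obtain ⟨y, hy⟩ : ∃ y, y = af A b q := ⟨_, rfl⟩
  rw [← hy] at s1 e
  obtain ⟨N', hN'⟩ : ∃ N', N' = algebraMap k Ω ∘ N := ⟨_, rfl⟩
  have n1 : N' ⬝ᵥ N' = algebraMap k Ω (N ⬝ᵥ N) := by simp [hN', dotProduct]
  have n2 : N' ⬝ᵥ N' ≠ 0 := by have := s1.nn; rwa [(hN y).1, ← hN'] at this
  have n3 : N ⬝ᵥ N ≠ 0 := fun h0 => n2 (by rw [n1, h0, map_zero])
  have n4 : N' ⬝ᵥ y = algebraMap k Ω c := by
    have := s1.zero; rwa [(hN y).2, ← hN', sub_eq_zero] at this
  obtain ⟨R, hR⟩ : ∃ R : Matrix ι ι k, R = 1 - (2 / N ⬝ᵥ N) • vecMulVec N N := ⟨_, rfl⟩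
  have r1 : ∀ v : ι → Ω, R.map (algebraMap k Ω) *ᵥ v = rf N' v := fun v => by
    ext i
    simp only [hR, rf, n1]
    simp [hN', mulVec, dotProduct, vecMulVec, one_apply, sub_mul, Finset.sum_sub_distrib,
      apply_ite, map_ofNat, Finset.mul_sum, Finset.sum_div, Finset.sum_mul]
    exact Finset.sum_congr rfl fun j _ => by ring
  have r2 : Rᵀ * R = 1 := by
    rw [hR, transpose_sub, transpose_smul, transpose_vecMulVec, transpose_one, sub_mul, mul_sub,
      mul_sub, smul_mul_smul_comm, vecMulVec_mul_vecMulVec]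
    ext i j
    simp [vecMulVec]; field_simp; ring
  have r3 : (R * A)ᵀ * (R * A) = 1 := by
    rw [transpose_mul, mul_assoc, ← mul_assoc Rᵀ, r2, one_mul, hA]
  have r4 : ∀ z : ι → Ω, af R ((2 * c / N ⬝ᵥ N) • N) z =
      rf N' z + (2 * algebraMap k Ω c / N' ⬝ᵥ N') • N' := fun z => by
    rw [af, r1, n1]; ext i; simp [hN', map_ofNat]
  have u1 : (act hA b l').u = rf N' (act hA b l).u := by rw [s1.eq, (hN y).1, hN']
  have u2 : (act r3 (R *ᵥ b + (2 * c / N ⬝ᵥ N) • N) l').u = (act hA b l).u := by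
    rw [← rf_rf n2 (act hA b l).u, ← u1, ← r1]
    simp [act, mkLi, Matrix.map_mul]
  have u3 := on_act (b := R *ᵥ b + (2 * c / N ⬝ᵥ N) • N) r3 s.on'
  rw [← af_af, ← hy, r4, rf, n4, sub_add_cancel] at u3
  refine ⟨R * A, R *ᵥ b + (2 * c / N ⬝ᵥ N) • N, r3, ?_⟩
  rw [Li.eq_of_on u3 s1.on u2]
  convert h using 1
  have u4 : algebraMap k Ω ∘ (R *ᵥ b + (2 * c / N ⬝ᵥ N) • N) =
      af R ((2 * c / N ⬝ᵥ N) • N) (algebraMap k Ω ∘ b) := by
    ext i; simp [af, mulVec, dotProduct]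
  rw [u4, r4, add_dotProduct, dot_rf_comm, ← u1, smul_dotProduct]
  rw [del, u1, rf, sub_sub_cancel, dotProduct_smul, dotProduct_comm y, n4, ← rf, ← u1] at e
  simp only [smul_eq_mul] at e ⊢
  linear_combination -e

omit [Algebra k ℝ] in
lemma fix [CharZero Ω] [Nontrivial ι] {l : Li Ω ι} (hl : Gen k l) (hA : Aᵀ * A = 1)
    (h : act hA b l = l) : algebraMap k Ω ∘ b ⬝ᵥ l.u = 0 := by
  have hc : ∀ (θ : Derivation k Ω Ω) (v : ι → Ω), dv θ (A.map (algebraMap k Ω) *ᵥ v) =
      A.map (algebraMap k Ω) *ᵥ dv θ v := fun θ v => by ext; simp [dv, mulVec, dotProduct]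
  have h1 : A.map (algebraMap k Ω) *ᵥ l.u = l.u := congrArg Li.u h
  obtain ⟨θ, s, h2, -⟩ := hl.free l.on_x l.x 0 l.xu
  have h3 := congrArg (dv θ) h1
  rw [hc, h2] at h3
  have h4 := on_act (b := b) hA l.on_x
  rw [h, af, h3, Li.On, add_dotProduct, l.xu, zero_add, add_right_inj] at h4
  by_contra g0
  have h5 : ∀ j, Pi.single j 1 - l.u j • l.u = 0 := fun j => by
    obtain ⟨θ, s, h2, -⟩ := hl.free l.on_x (Pi.single j 1 - l.u j • l.u) 0 (by simp [l.uu])
    have h6 := congrArg (dv θ) h4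
    rw [dv_smul, h2, show dv θ (algebraMap k Ω ∘ b) = 0 by ext; simp [dv]] at h6
    have h7 := congrArg (· ⬝ᵥ l.u) h6
    simp only [zero_dotProduct, add_dotProduct, smul_dotProduct, sub_dotProduct, l.uu,
      single_one_dotProduct, smul_eq_mul, mul_one, sub_self, mul_zero, add_zero] at h7
    rw [← h7, zero_smul, zero_add] at h6
    exact (smul_eq_zero.1 h6.symm).resolve_left g0
  obtain ⟨i, j, hij⟩ := exists_pair_ne ι
  have a1 := congrFun (h5 i) i
  have a2 := congrFun (h5 j) j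
  have a3 := congrFun (h5 i) j
  simp [hij.symm] at a1 a2 a3
  rcases a3 with a3 | a3
  exacts [by simp [a3] at a1, by simp [a3] at a2]

section Chain

variable {C : Type} [Field C] [Algebra C Ω] [Algebra k C] [IsScalarTower k C Ω]
  {E : Submodule Ω (H17.Der C Ω)}

/-- The underlying line. -/
def toLi (l : H90.Ln E ι) : Li Ω ι := ⟨l.u, l.x, l.uu, l.xu⟩

omit [Algebra k ℝ] [DecidableEq ι] in
lemma gen_toLi (l : H90.Ln E ι) : Gen k (toLi l) := fun a b h1 h2 => by
  obtain ⟨θ, -, h3, h4⟩ := l.surj a b h1 h2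
  exact ⟨θ.restrictScalars k, congrFun h3, congrFun h4⟩

lemma step_of_refl [CharZero Ω] {m : H90.Pt E ι} {l l' : H90.Ln E ι} (h : H90.Refl m l l')
    (hr : H90.RL k Ω ι m.q) : ∃ F : MvPolynomial ι k, RM F ∧ Step F (toLi l) m.q (toLi l') := by
  obtain ⟨-, h1, y, hy⟩ := hr
  rw [algebraicIndependent_iff] at h1
  push Not at h1
  obtain ⟨P, p1, p2⟩ := h1
  obtain ⟨F, f1, f2⟩ : ∃ F : MvPolynomial ι k, Irreducible F ∧ aeval m.q F = 0 := by
    induction P using WfDvdMonoid.induction_on_irreducible with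
    | zero => exact (p2 rfl).elim
    | unit u hu => exact ((hu.map (aeval m.q)).ne_zero p1).elim
    | mul a i ha hi ih =>
      rw [map_mul, mul_eq_zero] at p1
      exact p1.elim (fun e => ⟨i, hi, e⟩) fun e => ih e ha
  have on : (toLi l).On m.q := h.on.eq
  have hF : RM F := ⟨f1.prime, y, fun P => (hy P).symm.trans ⟨(gen_toLi l).ker on f1 f2, fun h => by
    obtain ⟨Q, rfl⟩ := h
    rw [map_mul, f2, zero_mul]⟩⟩
  have nn := ((gen_toLi l).good hF.mir).nn _ on f2
  have e : grad F m.q = (grad F m.q ⬝ᵥ m.ν) • m.ν := funext fun j => by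
    obtain ⟨θ, -, h2⟩ := m.surj (Pi.single j 1 - m.ν j • m.ν) (by simp [m.νν])
    have := grad_dv (θ := θ.restrictScalars k) f2
    rw [show dv (θ.restrictScalars k) m.q = _ from h2] at this
    simpa [sub_eq_zero, mul_comm] using this
  have c0 : grad F m.q ⬝ᵥ m.ν ≠ 0 := fun h0 => nn (by rw [e, h0]; simp)
  refine ⟨F, hF, on, h.on'.eq, f2, nn, (gen_toLi l).nu on f2 fun h0 => nn (by simp [h0]), ?_⟩
  rw [e, smul_rf c0, rf, m.νν, div_one]
  exact h.eq

end Chain

/-- Closed chains of real algebraic mirrors have delay zero. -/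
theorem conv (hF : ∀ (k ι : Type) [Field k] [Algebra k ℝ] [Fintype ι] [DecidableEq ι], RC k →
    3 ≤ Fintype.card ι → Fin' k (AlgebraicClosure k) ι) : H90.StmtA (up H90.RL) := by
  intro k C Ω ι _ _ _ _ _ _ _ _ _ _ _ _ _ E m l n _ hc hy _ hm
  classical
  rcases n.eq_zero_or_pos with rfl | hn
  · simp [H90.del]
  have key : ∀ i ≤ n, ∃ (A : Matrix ι ι k) (b : ι → k) (hA : Aᵀ * A = 1),
      Pth k (toLi (l 0)) (act hA b (toLi (l i)))
        (H90.del m l 0 i - algebraMap k Ω ∘ b ⬝ᵥ (act hA b (toLi (l i))).u) := fun i hi => by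
    induction i with
    | zero =>
      refine ⟨1, 0, by simp, 0, 0, fun _ => toLi (l 0), 0, by simp, ⟨by simp, rfl, ?_⟩, ?_⟩
      · refine Li.eq_of_on (Li.on_x _) ?_ (by simp [act, mkLi])
        simpa [af_one] using on_act (A := (1 : Matrix ι ι k)) (b := 0) (by simp) (toLi (l 0)).on_x
      · simp [tot, H90.del, dotProduct]
    | succ i ih =>
      obtain ⟨A, b, hA, h⟩ := ih (by omega)
      obtain ⟨F, f1, f2⟩ := step_of_refl (hc i i.zero_le hi) (hm i hi).2.1
      rw [H90.del, Finset.sum_Ico_succ_top i.zero_le]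
      exact unfold f1 f2 hA h
  obtain ⟨A, b, hA, r, F, L, q, h1, h2, h3⟩ := key n le_rfl
  rw [show toLi (l n) = toLi (l 0) from Li.ext hy.1 hy.2] at h2 h3
  obtain ⟨h4, h5⟩ := zero_real' (hm 0 hn).2.1.1 (hF k ι (hm 0 hn).2.1.1 (hm 0 hn).2.2)
    (gen_toLi (l 0)) h1 h2 A b rfl (on_mkLi ..)
  rwa [h5, h4, fix (gen_toLi _) hA h4, sub_zero, eq_comm] at h3

end Pool.Agent.MP_249f74_an.H72
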