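import Pool.Agent.MP_249f74_an.H17.CmSort
import Pool.Agent.MP_249f74_an.H42.Sys
import Pool.Agent.MP_249f74_an.H96.Pv

/-!
From generic unit lines to generic pairs of a point and a direction.
-/

open Set Matrix

namespace Pool.Agent.MP_249f74_an.H72

open H88 (cl rk mem_cl subset_cl mem_cl_of_root le_rk_iff)
open H17 (mem_cl_of_rk rk_finite cl_le map_mem_cl)
open H17.Cm

variable {C Ω Ω' ι : Type} [Field C] [Field Ω] [Field Ω'] [Algebra C Ω] [Algebra C Ω']
  [Fintype ι] [DecidableEq ι]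

omit [Field Ω] [Algebra C Ω] [DecidableEq ι] in
/-- A field that is algebraic over one generic edge is algebraic over every generic edge. -/
lemma sf_of {κ : Type} [Fintype κ] {E : κ → Ω'} (h : ∀ a, a ∈ cl C (range E)) :
    H42.Sf C Ω' κ := fun l hl a => by
  have h1 : AlgebraicIndependent C l := algebraicIndependent_iff.2 hl
  have h2 : (Fintype.card κ : ℕ∞) ≤ rk C (range l) :=
    (le_rk_iff l _).2 ⟨Finset.univ, by simp, h1.comp _ Subtype.val_injective⟩
  exact cl_le (mem_cl_of_rk (rk_finite (finite_range l)) (fun b _ => h b)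
    ((H88.rk_le_card E).trans h2)) (h a)

/-- The image of a line. -/
def Li.map (φ : Ω →ₐ[C] Ω') (l : Li Ω ι) : Li Ω' ι where
  u := φ ∘ l.u
  x := φ ∘ l.x
  uu := by rw [← map_one φ, ← l.uu]; simp [dotProduct]
  xu := by rw [← map_zero φ, ← l.xu]; simp [dotProduct]

/-- The edge with the base point at the position `s` and the speed `c`. -/
def edge (l : Li Ω ι) (s c : Ω) : ι ⊕ ι → Ω := Sum.elim (l.x + s • l.u) (c • l.u)

section Ext

variable [Algebra Ω Ω'] [IsScalarTower C Ω Ω'] [CharZero Ω] [CharZero Ω'] {v : Bool → Ω'} {l : Li Ω ι}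

lemma edge_gen (hv : IsTranscendenceBasis Ω v) (hl : Gen C l) : AlgebraicIndependent C
    (edge (Li.map (IsScalarTower.toAlgHom C Ω Ω') l) (v true) (v false)) := by
  have c0 : v false ≠ 0 := hv.1.ne_zero false
  have key : ∀ (a b : ι → Ω) (s c : Ω'), a ⬝ᵥ l.u = 0 → b ⬝ᵥ l.u + l.x ⬝ᵥ a = 0 →
      ∃ θ : Derivation C Ω' Ω', ∀ j,
        θ (algebraMap Ω Ω' (l.x j) + v true * algebraMap Ω Ω' (l.u j)) = algebraMap Ω Ω' (b j) +
          s * algebraMap Ω Ω' (l.u j) + v true * algebraMap Ω Ω' (a j) ∧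
        θ (v false * algebraMap Ω Ω' (l.u j)) =
          c * algebraMap Ω Ω' (l.u j) + v false * algebraMap Ω Ω' (a j) := fun a b s c h1 h2 => by
    obtain ⟨θ, h3, h4⟩ := hl a b h1 h2
    obtain ⟨φ, h5, h6⟩ := H96.Pv.extend hv θ fun j => cond j s c
    refine ⟨φ, fun j => ⟨?_, ?_⟩⟩ <;> simp [h5, h6, h3, h4] <;> ring
  have hu : ∀ j, (Pi.single j 1 - l.u j • l.u) ⬝ᵥ l.u = 0 := fun j => by simp [l.uu]
  refine indep_of_dual ?_
  rintro (j | j)
  · obtain ⟨θ, h⟩ := key 0 (Pi.single j 1 - l.u j • l.u) (algebraMap Ω Ω' (l.u j)) 0 (by simp)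
      (by simp [hu])
    refine ⟨θ, funext ?_⟩
    rintro (i | i)
    · have := (h i).1
      by_cases e : i = j <;> simp_all [dv, edge, Li.map]
    · simpa [dv, edge, Li.map] using (h i).2
  · obtain ⟨θ, h⟩ := key (Pi.single j 1 - l.u j • l.u)
      (-(l.x ⬝ᵥ (Pi.single j 1 - l.u j • l.u)) • l.u)
      (algebraMap Ω Ω' (l.x ⬝ᵥ (Pi.single j 1 - l.u j • l.u))) (v false * algebraMap Ω Ω' (l.u j))
      (hu j) (by simp [l.uu])
    obtain ⟨φ, h'⟩ := key 0 (Pi.single j 1 - l.u j • l.u) 0 0 (by simp) (by simp [hu])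
    refine ⟨(v false)⁻¹ • (θ - v true • φ), funext ?_⟩
    rintro (i | i)
    · have h1 := (h i).1
      have h2 := (h' i).1
      simp only [dv, edge, Li.map, Sum.elim_inl, Pi.add_apply, Pi.smul_apply, Function.comp,
        IsScalarTower.coe_toAlgHom', smul_eq_mul, Derivation.smul_apply, Derivation.sub_apply,
        h1, h2]
      simp [l.xu]
    · have h1 := (h i).2
      have h2 := (h' i).2
      simp only [dv, edge, Li.map, Sum.elim_inr, Pi.smul_apply, Function.comp,
        IsScalarTower.coe_toAlgHom', smul_eq_mul, Derivation.smul_apply, Derivation.sub_apply,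
        h1, h2]
      by_cases e : i = j
      · simp [e]; field_simp; ring
      · simp [e]; right; ring

omit [CharZero Ω] [CharZero Ω'] [DecidableEq ι] in
lemma edge_alg (hv : IsTranscendenceBasis Ω v) (ha : ∀ a, a ∈ cl C (range l.u ∪ range l.x))
    (a : Ω') :
    a ∈ cl C (range (edge (Li.map (IsScalarTower.toAlgHom C Ω Ω') l) (v true) (v false))) := by
  have c0 : v false ≠ 0 := hv.1.ne_zero false
  obtain ⟨L, hL⟩ : ∃ L, L = Li.map (IsScalarTower.toAlgHom C Ω Ω') l := ⟨_, rfl⟩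
  rw [← hL]
  obtain ⟨K, hK⟩ : ∃ K, K = cl C (range (edge L (v true) (v false))) := ⟨_, rfl⟩
  have hX : ∀ j, L.x j + v true * L.u j ∈ K := fun j => hK ▸ subset_cl _ ⟨Sum.inl j, rfl⟩
  have hU : ∀ j, v false * L.u j ∈ K := fun j => hK ▸ subset_cl _ ⟨Sum.inr j, rfl⟩
  have h1 : v false ∈ K := by
    have e : v false ^ 2 = ∑ j, (v false * L.u j) * (v false * L.u j) := by
      have := L.uu
      rw [dotProduct] at this
      rw [← mul_one (v false ^ 2), ← this, Finset.mul_sum]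
      exact Finset.sum_congr rfl fun j _ => by ring
    have e2 : v false ^ 2 ∈ K := e ▸ sum_mem fun j _ => mul_mem (hU j) (hU j)
    rw [hK] at e2 ⊢
    refine mem_cl_of_root (Polynomial.X_pow_sub_C_ne_zero two_pos (v false ^ 2)) (fun i => ?_)
      (by simp)
    rw [Polynomial.coeff_sub, Polynomial.coeff_X_pow, Polynomial.coeff_C]
    refine sub_mem ?_ ?_ <;> split_ifs
    exacts [one_mem _, zero_mem _, e2, zero_mem _]
  have h2 : ∀ j, L.u j ∈ K := fun j => by
    simpa [c0] using mul_mem (inv_mem h1) (hU j)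
  have h3 : v true ∈ K := by
    have e : v true = (L.x + v true • L.u) ⬝ᵥ L.u := by simp [L.xu, L.uu]
    exact e ▸ sum_mem fun j _ => mul_mem (hX j) (h2 j)
  have h4 : ∀ j, L.x j ∈ K := fun j => by simpa using sub_mem (hX j) (mul_mem h3 (h2 j))
  have h5 : ∀ b : Ω, algebraMap Ω Ω' b ∈ K := fun b => by
    rw [hK] at h2 h4 ⊢
    refine cl_le ?_ (map_mem_cl (IsScalarTower.toAlgHom C Ω Ω') (ha b))
    subst hL
    rintro _ ⟨_, ⟨j, rfl⟩ | ⟨j, rfl⟩, rfl⟩
    exacts [h2 j, h4 j]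
  obtain ⟨p, p0, hp⟩ := hv.isAlgebraic.isAlgebraic a
  rw [← hK]
  have h6 : ∀ b ∈ Algebra.adjoin Ω (range v), b ∈ K := fun b hb => by
    induction hb using Algebra.adjoin_induction with
    | mem x hx => obtain ⟨_ | _, rfl⟩ := hx; exacts [h1, h3]
    | algebraMap r => exact h5 r
    | add _ _ _ _ h h' => exact add_mem h h'
    | mul _ _ _ _ h h' => exact mul_mem h h'
  rw [hK] at h6 ⊢
  refine mem_cl_of_root (p := p.map (algebraMap _ Ω'))
    ((Polynomial.map_ne_zero_iff Subtype.val_injective).2 p0) (fun i => ?_)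
    (by rwa [Polynomial.eval_map_algebraMap])
  rw [Polynomial.coeff_map]
  exact h6 _ (p.coeff i).2

end Ext

end Pool.Agent.MP_249f74_an.H72
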