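import Pool.Agent.MP_249f74_an.H96.Irr

/-!
A function all of whose derivatives along a level curve vanish at a point vanishes to infinite
order along the curve.
-/

namespace Pool.Agent.MP_249f74_an.H72

open Filter Topology Asymptotics H96 H96.Irr

variable {f : EuclideanSpace ℝ (Fin 2) → ℝ} {q : EuclideanSpace ℝ (Fin 2)}

lemma fderiv_eq (f : EuclideanSpace ℝ (Fin 2) → ℝ) (x v : EuclideanSpace ℝ (Fin 2)) :
    fderiv ℝ f x v = gradient f x 0 * v 0 + gradient f x 1 * v 1 := by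
  have := InnerProductSpace.toDual_symm_apply (𝕜 := ℝ) (x := v) (y := fderiv ℝ f x)
  rw [← this, PiLp.inner_apply]
  simp [gradient, mul_comm]

/-- A parametrisation of the level curve. -/
lemma exists_param (hf : f ∈ Sm) (h0 : f q = 0) (hq : gradient f q ≠ 0) :
    ∃ (γ : ℝ → EuclideanSpace ℝ (Fin 2)) (l : EuclideanSpace ℝ (Fin 2) →L[ℝ] ℝ) (c : ℝ → ℝ),
      γ 0 = q ∧ ContinuousAt γ 0 ∧ ContinuousAt c 0 ∧
      (∀ᶠ t in 𝓝 (0 : ℝ), HasDerivAt γ (c t • !₂[-gradient f (γ t) 1, gradient f (γ t) 0]) t) ∧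
      ∀ᶠ x in 𝓝 q, f x = 0 → γ (l (x - q)) = x := by
  set a := gradient f q 0 with ha
  set b := gradient f q 1 with hb
  have hab : b * b + a * a ≠ 0 := fun h => hq (by
    ext i
    fin_cases i
    · exact (by nlinarith [mul_self_nonneg a, mul_self_nonneg b] : a = 0)
    · exact (by nlinarith [mul_self_nonneg a, mul_self_nonneg b] : b = 0))
  let l : EuclideanSpace ℝ (Fin 2) →L[ℝ] ℝ :=
    (-b) • EuclideanSpace.proj (0 : Fin 2) + a • EuclideanSpace.proj (1 : Fin 2)
  have hl : ∀ v, l v = -b * v 0 + a * v 1 := fun v => by simp [l]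
  let L := (fderiv ℝ f q).prod l
  have hL : Function.Injective L := by
    rw [injective_iff_map_eq_zero]
    intro v hv
    have h1 : a * v 0 + b * v 1 = 0 := by
      rw [ha, hb, ← fderiv_eq]; exact congrArg Prod.fst hv
    have h2 : -b * v 0 + a * v 1 = 0 := by rw [← hl]; exact congrArg Prod.snd hv
    ext i
    fin_cases i
    · exact (mul_eq_zero.1 (show _ * v 0 = 0 by
        linear_combination a * h1 - b * h2)).resolve_left hab
    · exact (mul_eq_zero.1 (show _ * v 1 = 0 by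
        linear_combination b * h1 + a * h2)).resolve_left hab
  let e : EuclideanSpace ℝ (Fin 2) ≃L[ℝ] ℝ × ℝ :=
    (L.toLinearMap.linearEquivOfInjective hL (by simp)).toContinuousLinearEquiv
  let Φ : EuclideanSpace ℝ (Fin 2) → ℝ × ℝ := fun x => (f x, l (x - q))
  have hΦ : ContDiff ℝ 1 Φ := ((mem_Sm.1 hf).of_le (by simp)).prodMk (by fun_prop)
  have hd : ∀ x, HasFDerivAt Φ ((fderiv ℝ f x).prod l) x := fun x =>
    (diff ⟨f, hf⟩ x).hasFDerivAt.prodMk
      (l.hasFDerivAt.comp x ((hasFDerivAt_id x).sub_const q))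
  have hΦ' : HasFDerivAt Φ (e : EuclideanSpace ℝ (Fin 2) →L[ℝ] ℝ × ℝ) q := hd q
  have hq0 : Φ q = (0, 0) := by simp [Φ, h0]
  let Ψ := hΦ.contDiffAt.localInverse hΦ' one_ne_zero
  have h1 : ContDiffAt ℝ 1 Ψ (0, 0) := hq0 ▸ hΦ.contDiffAt.to_localInverse hΦ' one_ne_zero
  have h2 : ∀ᶠ x in 𝓝 q, Ψ (Φ x) = x :=
    (hΦ.contDiffAt.hasStrictFDerivAt' hΦ' one_ne_zero).eventually_left_inverse
  have h3 : ∀ᶠ y in 𝓝 ((0 : ℝ), (0 : ℝ)), Φ (Ψ y) = y :=
    hq0 ▸ (hΦ.contDiffAt.hasStrictFDerivAt' hΦ' one_ne_zero).eventually_right_inverse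
  have hi : ContDiff ℝ 1 fun t : ℝ => ((0 : ℝ), t) := by fun_prop
  have hγ : ContDiffAt ℝ 1 (fun t : ℝ => Ψ (0, t)) 0 := h1.comp 0 hi.contDiffAt
  have hγ0 : Ψ (0, 0) = q := hq0 ▸ h2.self_of_nhds
  have hg : ∀ j, ContinuousAt (fun t : ℝ => gradient f (Ψ (0, t)) j) 0 := fun j =>
    (mem_Sm.1 (grad hf j)).continuous.continuousAt.comp hγ.continuousAt
  have hD : ContinuousAt
      (fun t : ℝ => b * gradient f (Ψ (0, t)) 1 + a * gradient f (Ψ (0, t)) 0) 0 :=
    ((hg 1).const_mul b).add ((hg 0).const_mul a)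
  have hD0 : b * gradient f (Ψ (0, 0)) 1 + a * gradient f (Ψ (0, 0)) 0 ≠ 0 := by rwa [hγ0]
  refine ⟨fun t => Ψ (0, t), l, fun t => (b * gradient f (Ψ (0, t)) 1 +
    a * gradient f (Ψ (0, t)) 0)⁻¹, hγ0, hγ.continuousAt, hD.inv₀ hD0, ?_, ?_⟩
  · filter_upwards [hγ.eventually (by simp), hD.eventually_ne hD0,
      (hi.continuous.continuousAt.eventually h3).eventually_nhds] with t t1 t2 t3
    have d1 := (t1.differentiableAt one_ne_zero).hasDerivAt
    set u := deriv (fun t : ℝ => Ψ (0, t)) t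
    have d2 := ((hd _).comp_hasDerivAt t d1).unique
      (((hasDerivAt_const t (0 : ℝ)).prodMk (hasDerivAt_id t)).congr_of_eventuallyEq t3)
    have e1 : gradient f (Ψ (0, t)) 0 * u 0 + gradient f (Ψ (0, t)) 1 * u 1 = 0 := by
      rw [← fderiv_eq]; exact congrArg Prod.fst d2
    have e2 : -b * u 0 + a * u 1 = 1 := by rw [← hl]; exact congrArg Prod.snd d2
    refine d1.congr_deriv ?_
    rw [eq_inv_smul_iff₀ t2]
    ext i
    fin_cases i
    · simp; linear_combination -gradient f (Ψ (0, t)) 1 * e2 + a * e1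
    · simp; linear_combination gradient f (Ψ (0, t)) 0 * e2 + b * e1
  · filter_upwards [h2] with x hx h
    simpa [Φ, h] using hx

lemma flat_fun (hf : f ∈ Sm) (h0 : f q = 0) (hq : gradient f q ≠ 0) (m : ℕ)
    {g : EuclideanSpace ℝ (Fin 2) → ℝ} (hg : g ∈ Sm) (h : ∀ n, (tg f)^[n] g q = 0) :
    g =O[𝓝[{x | f x = 0}] q] fun x => ‖x - q‖ ^ m := by
  obtain ⟨γ, l, c, g0, g1, c1, hd, hl⟩ := exists_param hf h0 hq
  have key : ∀ m : ℕ, ∀ g ∈ Sm, (∀ n, (tg f)^[n] g q = 0) →
      (fun t => g (γ t)) =o[𝓝 0] fun t : ℝ => (t - 0) ^ m := by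
    intro m
    induction m with
    | zero =>
      intro g hg h
      have := ((mem_Sm.1 hg).continuous.continuousAt.comp g1).tendsto
      simp only [Function.comp_def, g0, show g q = 0 from h 0] at this
      simpa using this
    | succ m ih =>
      intro g hg h
      obtain ⟨ε, hε, hb⟩ := Metric.eventually_nhds_iff_ball.1 hd
      have h1 := (convex_ball (0 : ℝ) ε).isLittleO_pow_succ_real (f := fun t => g (γ t))
        (f' := fun t => c t * tg f g (γ t)) (n := m) (Metric.mem_ball_self hε)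
        (fun t ht => ?_) ?_
      · rw [nhdsWithin_eq_nhds.2 (Metric.ball_mem_nhds _ hε)] at h1
        simpa only [g0, show g q = 0 from h 0, sub_zero] using h1
      · have := (diff ⟨g, hg⟩ (γ t)).hasFDerivAt.comp_hasDerivAt t (hb t ht)
        rw [map_smul] at this
        exact this.hasDerivWithinAt
      · have := (c1.tendsto.isBigO_one ℝ).mul_isLittleO
          (ih _ (tg_mem hf hg) fun n => h (n + 1))
        simpa only [one_mul] using this.mono nhdsWithin_le_nhds
  have t1 : Tendsto (fun x => l (x - q)) (𝓝[{x | f x = 0}] q) (𝓝 0) := by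
    have : Continuous fun x => l (x - q) := by fun_prop
    simpa using (this.tendsto q).mono_left nhdsWithin_le_nhds
  have h2 := ((key m g hg h).isBigO.comp_tendsto t1).trans
    (show _ =O[_] fun x => ‖x - q‖ ^ m from by
      simpa only [Function.comp_def, sub_zero] using (l.isBigO_comp (fun x => x - q) _).norm_right.pow m)
  refine h2.congr' ?_ EventuallyEq.rfl
  filter_upwards [self_mem_nhdsWithin, nhdsWithin_le_nhds hl] with x hx h
  simp only [Function.comp_apply, h hx]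

theorem flat (hf : ContDiff ℝ ((⊤ : ℕ∞) : WithTop ℕ∞) f) (h0 : f q = 0) (hq : gradient f q ≠ 0)
    {P : MvPolynomial (Fin 2) ℝ} (h : Tang f q P) (m : ℕ) :
    (fun x : EuclideanSpace ℝ (Fin 2) => MvPolynomial.eval (fun j => x j) P)
      =O[𝓝[{x | f x = 0}] q] fun x => ‖x - q‖ ^ m :=
  flat_fun hf h0 hq m (pol_apply P ▸ (pol P).2) h

end Pool.Agent.MP_249f74_an.H72
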