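import Pool.Agent.MP_249f74_an.H72.Bridge
import Pool.Agent.MP_249f74_an.H32.Bas
import Pool.Agent.MP_249f74_an.H96A.Down

/-!
Trivial paths in arbitrary fields.
-/

open Set Matrix

namespace Pool.Agent.MP_249f74_an.H72

open H88 (cl subset_cl)
open H17 (cl_le)
open H17.Cm (Li Step Gen Pa tot del grad rf Comm)
open H32 (Mir St pt pos dir sys)
open H52 (RC RM)

variable {k C Ω Ω' ι : Type} [Field k] [Algebra k ℝ] [Field C] [Algebra k C] [Field Ω] [Field Ω']
  [Algebra C Ω] [Algebra C Ω'] [Fintype ι] [DecidableEq ι]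

omit [DecidableEq ι] in
lemma st_of_map (φ : Ω →ₐ[C] Ω') {m : Mir k C ι} {l l' : ι ⊕ ι → Ω} {t : Ω}
    (h : St m (φ ∘ l) (φ t) (φ ∘ l')) : St m l t l' := by
  have hp : ∀ l : ι ⊕ ι → Ω, pt (φ ∘ l) (φ t) = φ ∘ pt l t := fun l => by
    ext i; simp [pt, pos, dir]
  have hg : ∀ q, grad m.f (φ ∘ q) = φ ∘ grad m.f q := fun q => funext fun i => aeval_map ..
  have hd : ∀ l : ι ⊕ ι → Ω, dir (φ ∘ l) = φ ∘ dir l := fun _ => rfl
  obtain ⟨h1, h2, h3, h4, h5⟩ := h
  simp only [hp, hg, hd, dot_map, aeval_map, rf, map_eq_zero, ne_eq] at h1 h2 h3 h4 h5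
  refine ⟨h1, h2, h3, funext fun i => φ.injective (congrFun h4 i), funext fun i =>
    φ.injective ((congrFun h5 i).trans ?_)⟩
  simp [rf, map_ofNat]

lemma fin_any [CharZero Ω] [IsAlgClosed Ω] [Nonempty ι] (hF : Fin' k C ι) {n : ℕ} (hn : 0 < n)
    {m : ℕ → Mir k C ι} {E : ℕ → ι ⊕ ι → Ω} {t : ℕ → Ω} (g0 : H42.Gen C (E 0))
    (st : ∀ i < n, St (m i) (E i) (t i) (E (i + 1))) (nb : ∀ i, i + 1 < n → t i ≠ t (i + 1))
    (hr : H17.Cm.Red H32.Cm n m) (A : Matrix ι ι C) (b : ι → C) (w : Ω)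
    (hu : ∀ j, dir (E n) j = ∑ i, algebraMap C Ω (A j i) * dir (E 0) i)
    (hx : ∀ j, pos (E n) j = ∑ i, algebraMap C Ω (A j i) * pos (E 0) i + algebraMap C Ω (b j) +
      w * dir (E n) j) : False := by
  let K := cl C (range (E 0))
  have : IsAlgClosed K := H96A.Down.closed _
  have h1 : ∀ i ≤ n, range (E i) ⊆ K ∧ H42.Gen C (E i) := fun i hi => by
    induction i with
    | zero => exact ⟨subset_cl _, g0⟩
    | succ i ih => exact ⟨(st i hi).sub_cl.trans (cl_le (ih (by omega)).1),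
        (st i hi).gen (ih (by omega)).2⟩
  have h2 : ∀ i, ∃ e : ι ⊕ ι → K, i ≤ n → K.val ∘ e = E i := fun i => by
    by_cases hi : i ≤ n
    exacts [⟨fun j => ⟨_, (h1 i hi).1 ⟨j, rfl⟩⟩, fun _ => rfl⟩, ⟨0, fun h => absurd h hi⟩]
  have h3 : ∀ i, ∃ s : K, i < n → K.val s = t i := fun i => by
    by_cases hi : i < n
    exacts [⟨⟨_, cl_le (h1 i hi.le).1 (H32.mem_cl_of_pts (st i hi).mem)⟩, fun _ => rfl⟩,
      ⟨0, fun h => absurd h hi⟩]
  choose e he using h2
  choose s hs using h3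
  have e0 := he 0 n.zero_le
  have en := he n le_rfl
  have g1 : H42.Gen C (e 0) := fun P hP => g0 P (by
    rw [← e0, H42.ev, aeval_map, show MvPolynomial.aeval (e 0) P = 0 from hP, map_zero])
  have hw : w ∈ K := by
    obtain ⟨j⟩ := ‹Nonempty ι›
    have d0 : dir (E n) j ≠ 0 := (H32.gen_iff.1 (h1 n le_rfl).2).ne_zero _
    rw [show w = (pos (E n) j - (∑ i, algebraMap C Ω (A j i) * pos (E 0) i +
      algebraMap C Ω (b j))) / dir (E n) j by rw [hx j]; field_simp; ring]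
    exact div_mem (sub_mem ((h1 n le_rfl).1 ⟨_, rfl⟩) (add_mem (sum_mem fun i _ =>
      mul_mem (algebraMap_mem _ _) (subset_cl _ ⟨_, rfl⟩)) (algebraMap_mem _ _)))
      ((h1 n le_rfl).1 ⟨_, rfl⟩)
  refine hF K (sf_of (E := e 0) fun a => H96A.Down.mem_cl_of_map K.val ?_) ⟨_, g1⟩
    (fun i => m i.toNat) (fun i => e i.toNat) (fun i => s i.toNat) 0 n (by omega)
    ⟨fun i a1 a2 => ?_, fun i a1 a2 a3 => ?_⟩ g1 (fun i j a1 a2 a3 a4 a5 => ?_) fun σ hσ => ?_
  · rw [← range_comp, e0]; exact a.2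
  · lift i to ℕ using a1
    refine st_of_map K.val ?_
    change St _ (K.val ∘ e i) (K.val (s i)) (K.val ∘ e (i + 1))
    rw [he i (by omega), he (i + 1) (by omega), hs i (by omega)]
    exact st i (by omega)
  · lift i to ℕ using a1
    refine nb i (by omega) ?_
    rw [← hs i (by omega), ← hs (i + 1) (by omega)]
    exact congrArg _ a3
  · have := hr i.toNat j.toNat (by omega) (by omega) a4 fun r h6 h7 =>
      a5 r (by omega) (by omega)
    omega
  · have f1 : ∀ j, σ (e 0 j) = e 0 j := fun j => hσ _ ⟨j, rfl⟩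
    have f2 : ∀ j, e n (.inr j) = ∑ i, algebraMap C K (A j i) * e 0 (.inr i) := fun j =>
      K.val.injective (by simpa [← en, ← e0, dir] using hu j)
    have f3 : ∀ j, e n (.inl j) = ∑ i, algebraMap C K (A j i) * e 0 (.inl i) +
        algebraMap C K (b j) + ⟨w, hw⟩ * e n (.inr j) := fun j =>
      K.val.injective (by simpa [← en, ← e0, dir, pos] using hx j)
    have f4 : ∀ j, σ (e n (.inr j)) = e n (.inr j) := fun j => by
      simp only [f2, map_sum, map_mul, f1, AlgEquiv.commutes]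
    refine ⟨funext fun j => (f4 j).symm, ⟨w, hw⟩ - σ ⟨w, hw⟩, funext fun j => ?_⟩
    change e n (.inl j) = σ (e n (.inl j)) + (⟨w, hw⟩ - σ ⟨w, hw⟩) * σ (e n (.inr j))
    simp only [f3, map_add, map_sum, map_mul, f1, f4, AlgEquiv.commutes]
    ring

theorem zero' [CharZero Ω] [Nonempty ι] (hF : Fin' k C ι) {l l' : Li Ω ι} (hl : Gen C l)
    {n : ℕ} {m : ℕ → Mir k C ι} {L : ℕ → Li Ω ι}
    {q : ℕ → ι → Ω} (h : Pa (fun m : Mir k C ι => Step m.f) l l' n m L q) (A : Matrix ι ι C)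
    (b : ι → C) (hu : l'.u = A.map (algebraMap C Ω) *ᵥ l.u)
    (hx : l'.On (A.map (algebraMap C Ω) *ᵥ l.x + algebraMap C Ω ∘ b)) :
    l' = l ∧ tot n L q = 0 := by
  obtain ⟨n, m, L, q, -, h, e, hb, hr⟩ := H17.Cm.sort (fun m : Mir k C ι => m.f) Mir.mir
    (Cm := H32.Cm) (fun _ _ => cm_symm) (fun _ h => h.1 rfl) (fun _ _ => cm_comm) hl h
  rw [← e]
  rcases n.eq_zero_or_pos with rfl | hn
  · exact ⟨h.ln.symm.trans h.l0, by simp [tot]⟩
  exfalso
  obtain ⟨Ω', _, _, _, v, hv⟩ := H96.Pv.exists_ext Ω Bool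
  let _ : Algebra C Ω' := ((algebraMap Ω Ω').comp (algebraMap C Ω)).toAlgebra
  have : IsScalarTower C Ω Ω' := .of_algebraMap_eq fun _ => rfl
  have : CharZero Ω' := charZero_of_injective_algebraMap (algebraMap Ω Ω').injective
  let φ := IsScalarTower.toAlgHom C Ω Ω'
  have c0 : v false ≠ 0 := hv.1.ne_zero false
  let E : ℕ → ι ⊕ ι → Ω' := fun i => edge (Li.map φ (L i)) (v true - φ (tot i L q)) (v false)
  let t : ℕ → Ω' := fun i => (φ (q i ⬝ᵥ (L i).u) - (v true - φ (tot i L q))) / v false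
  have e1 : ∀ i, v true - φ (tot i L q) + t i * v false = φ (q i ⬝ᵥ (L i).u) := fun i => by
    simp only [t]; field_simp; ring
  have e2 : ∀ i, v true - φ (tot (i + 1) L q) + t i * v false = φ (q i ⬝ᵥ (L (i + 1)).u) :=
    fun i => by
      have := e1 i
      simp only [tot, Finset.sum_range_succ, del, dotProduct_sub, map_add, map_sub] at this ⊢
      linear_combination this
  have E0 : E 0 = edge (Li.map φ l) (v true) (v false) := by simp [E, h.l0, tot]
  have En : E n = edge (Li.map φ l') (v true - φ (tot n L q)) (v false) := by simp [E, h.ln]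
  obtain ⟨r, hr'⟩ := hx.sub l'.on_x
  have h1 : ∀ j, φ (l'.u j) = ∑ i, algebraMap C Ω' (A j i) * φ (l.u i) := fun j => by
    simp [hu, mulVec, dotProduct]
  refine fin_any hF hn (E := E) (t := t) (E0 ▸ algebraicIndependent_iff.1 (edge_gen hv hl))
    (fun i hi => st_of_step φ (h.st i hi) c0 (e1 i) (e2 i)) (fun i hi h4 => ?_) hr A b
    ((φ r - φ (tot n L q)) / v false) (fun j => ?_) fun j => ?_
  · have := (pt_on φ (h.st i (by omega)).on' (e2 i)).symm.trans
      (h4 ▸ pt_on φ (h.st (i + 1) (by omega)).on (e1 (i + 1)))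
    exact hb i (by omega) (funext fun j => φ.injective (congrFun this j))
  · rw [E0, En]
    change v false * φ (l'.u j) = ∑ i, _ * (v false * φ (l.u i))
    simp only [h1, Finset.mul_sum, mul_left_comm]
  · rw [E0, En]
    change φ (l'.x j) + _ * φ (l'.u j) = ∑ i, _ * (φ (l.x i) + v true * φ (l.u i)) + _ +
      _ * (v false * φ (l'.u j))
    have h2 : φ (l'.x j) = ∑ i, algebraMap C Ω' (A j i) * φ (l.x i) + algebraMap C Ω' (b j) +
        φ r * φ (l'.u j) := by
      conv_lhs => rw [hr']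
      simp [mulVec, dotProduct]
    simp only [mul_add, Finset.sum_add_distrib, mul_left_comm _ (v true), ← Finset.mul_sum, ← h1]
    rw [h2, ← mul_assoc, div_mul_cancel₀ _ c0]
    ring

omit [Algebra C Ω] in
theorem zero_real' [Algebra k Ω] [IsAlgClosed Ω] [Nonempty ι] (hk : RC k)
    (hF : Fin' k (AlgebraicClosure k) ι) {l l' : Li Ω ι} (hl : Gen k l) {n : ℕ}
    {F : ℕ → MvPolynomial ι k} {L : ℕ → Li Ω ι} {q : ℕ → ι → Ω}
    (hm : ∀ i < n, RM (F i) ∧ 2 ≤ (F i).totalDegree)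
    (h : Pa (fun F : MvPolynomial ι k => Step F) l l' n F L q) (A : Matrix ι ι k)
    (b : ι → k) (hu : l'.u = A.map (algebraMap k Ω) *ᵥ l.u)
    (hx : l'.On (A.map (algebraMap k Ω) *ᵥ l.x + algebraMap k Ω ∘ b)) :
    l' = l ∧ tot n L q = 0 := by
  rcases n.eq_zero_or_pos with rfl | hn
  · exact ⟨h.ln.symm.trans h.l0, by simp [tot]⟩
  have : CharZero k := (algebraMap k ℝ).charZero
  have : CharZero Ω := charZero_of_injective_algebraMap (algebraMap k Ω).injective
  let φ : AlgebraicClosure k →ₐ[k] Ω := IsAlgClosed.lift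
  let _ : Algebra (AlgebraicClosure k) Ω := φ.toRingHom.toAlgebra
  have : IsScalarTower k (AlgebraicClosure k) Ω := .of_algebraMap_eq fun c => (φ.commutes c).symm
  choose m a a0 e using fun i : Fin n =>
    exists_mir (C := AlgebraicClosure k) hk (hm i i.2).1 (hm i i.2).2
  have e1 : (A.map (algebraMap k (AlgebraicClosure k))).map (algebraMap _ Ω) =
      A.map (algebraMap k Ω) := by ext; simp [← IsScalarTower.algebraMap_apply]
  refine zero' hF (gen_base hl)
    (m := fun i => m ⟨i % n, Nat.mod_lt _ hn⟩) ⟨fun i hi => ?_, h.l0, h.ln⟩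
    (A.map (algebraMap k _)) (algebraMap k _ ∘ b) (e1 ▸ hu) ?_
  · simp only [Nat.mod_eq_of_lt hi, e]
    exact (step_map (h.st i hi)).smul (a0 _)
  · rwa [e1, ← Function.comp_assoc, ← RingHom.coe_comp, ← IsScalarTower.algebraMap_eq]

end Pool.Agent.MP_249f74_an.H72
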